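import Pool.Agent.Lib.MP_55179a_pr.Main

/-!
# Monotonicity of the speed of the one-dimensional Domb-Joyce polymer

The definitions follow the problem file: local times, Hamiltonian, polymer measure, speed.
-/

set_option autoImplicit false

namespace Pool.Agent.Results.MP_55179a_pr.SpeedMonotone

open Finset Filter

/-- Position `S_i` of the nearest neighbour walk with steps `ω` (`true` = step `+1`, `false` =
step `-1`), started at `0`. The simple random walk with `n` steps is the uniform distribution on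
the `2 ^ n` sequences `ω`. -/
def S {n : ℕ} (ω : Fin n → Bool) (i : ℕ) : ℤ :=
  ∑ j : Fin n, if (j : ℕ) < i then (if ω j then 1 else -1) else 0

/-- Local time `ℓ_n(x) = #{0 ≤ i ≤ n : S_i = x}`. -/
def ell {n : ℕ} (ω : Fin n → Bool) (x : ℤ) : ℕ := ((range (n + 1)).filter (fun i => S ω i = x)).card

/-- Hamiltonian `H_n(S) = β ∑_x ℓ_n(x)^2`. -/
noncomputable def Ham (β : ℝ) {n : ℕ} (ω : Fin n → Bool) : ℝ := β * ∑' x : ℤ, (ell ω x : ℝ) ^ 2

/-- Normalising constant `Z_n^β = E[exp(-H_n(S))]`. -/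
noncomputable def Z (β : ℝ) (n : ℕ) : ℝ :=
  ∑ ω : Fin n → Bool, (1 / 2) ^ n * Real.exp (-Ham β ω)

/-- The polymer measure `P_n^β(E)` of a set `E` of paths. -/
noncomputable def Pr (β : ℝ) (n : ℕ) (E : Set (Fin n → Bool)) : ℝ :=
  (∑ ω : Fin n → Bool, E.indicator (fun ω => (1 / 2) ^ n * Real.exp (-Ham β ω)) ω) / Z β n

/-- `θ` is the speed for the parameter `β`. -/
def IsSpeed (β θ : ℝ) : Prop :=
  ∀ ε : ℝ, 0 < ε → Tendsto (fun n : ℕ => Pr β n {ω | ε < |1 / (n : ℝ) * |(S ω n : ℝ)| - θ|})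
    atTop (nhds 0)

open Pool.Agent.MP_55179a_pr

lemma S_eq {n : ℕ} (ω : Fin n → Bool) (k : Fin (n + 1)) : S ω k = posn ω k := by
  unfold S posn
  rw [sum_filter]

lemma S_last {n : ℕ} (ω : Fin n → Bool) : S ω n = ∑ i : Fin n, (if ω i then (1 : ℤ) else -1) := by
  unfold S
  refine sum_congr rfl fun i _ => ?_
  rw [if_pos i.isLt]

lemma ell_eq {n : ℕ} (ω : Fin n → Bool) (x : ℤ) :
    ell ω x = (univ.filter (fun k : Fin (n + 1) => posn ω k = x)).card := by
  unfold ell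
  rw [card_filter, card_filter, ← Fin.sum_univ_eq_sum_range (fun i => if S ω i = x then 1 else 0)]
  exact sum_congr rfl fun k _ => by rw [S_eq]

lemma sum_sq {n : ℕ} (ω : Fin n → Bool) :
    ∑' x : ℤ, (ell ω x : ℝ) ^ 2 =
      ((univ.filter (fun p : Fin (n+1) × Fin (n+1) => posn ω p.1 = posn ω p.2)).card : ℝ) := by
  have h0 : ∀ x ∉ univ.image (posn ω), (ell ω x : ℝ) ^ 2 = 0 := by
    intro x hx
    have : ell ω x = 0 := by
      rw [ell_eq, card_eq_zero, filter_eq_empty_iff]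
      intro k _ hk
      exact hx (mem_image.2 ⟨k, mem_univ _, hk⟩)
    rw [this]; norm_num
  rw [tsum_eq_sum h0, card_eq_sum_card_fiberwise (f := fun p => posn ω p.1)
    (t := univ.image (posn ω)) (fun p _ => by simp)]
  push_cast
  refine sum_congr rfl fun x _ => ?_
  have : ((univ.filter (fun p : Fin (n+1) × Fin (n+1) => posn ω p.1 = posn ω p.2)).filter
      (fun p => posn ω p.1 = x)) =
      (univ.filter (fun k : Fin (n + 1) => posn ω k = x)) ×ˢ
        (univ.filter (fun k : Fin (n + 1) => posn ω k = x)) := by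
    ext p
    simp only [mem_filter, mem_univ, true_and, mem_product]
    constructor
    · rintro ⟨h1, h2⟩; exact ⟨h2, h1 ▸ h2⟩
    · rintro ⟨h1, h2⟩; exact ⟨h1.trans h2.symm, h1⟩
  rw [this, card_product, ← ell_eq]
  push_cast
  ring

lemma wt_ham (β : ℝ) {n : ℕ} (ω : Fin n → Bool) : Real.exp (-Ham β ω) = wt β ω := by
  unfold Ham wt
  rw [sum_sq, neg_mul]
  rfl

lemma Pr_eq (β : ℝ) (n : ℕ) (E : Set (Fin n → Bool)) [DecidablePred (· ∈ E)] :
    Pr β n E = (∑ ω ∈ univ.filter (· ∈ E), wt β ω) / ∑ ω : Fin n → Bool, wt β ω := by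
  unfold Pr Z
  have h2 : ((1 : ℝ) / 2) ^ n ≠ 0 := by positivity
  have e1 : ∑ ω : Fin n → Bool, E.indicator (fun ω => (1 / 2) ^ n * Real.exp (-Ham β ω)) ω =
      (1 / 2) ^ n * ∑ ω ∈ univ.filter (· ∈ E), wt β ω := by
    rw [mul_sum, sum_filter]
    refine sum_congr rfl fun ω _ => ?_
    rw [Set.indicator_apply]
    split_ifs
    · rw [wt_ham]
    · rfl
  have e2 : ∑ ω : Fin n → Bool, (1 / 2) ^ n * Real.exp (-Ham β ω) =
      (1 / 2) ^ n * ∑ ω : Fin n → Bool, wt β ω := by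
    rw [mul_sum]
    exact sum_congr rfl fun ω _ => by rw [wt_ham]
  rw [e1, e2, mul_div_mul_left _ _ h2]

lemma speed_link (β θ : ℝ) (h : IsSpeed β θ) : ∀ ε : ℝ, 0 < ε →
    Filter.Tendsto
      (fun n : ℕ =>
        (∑ ω ∈ Finset.univ.filter (fun ω : Fin n → Bool =>
            ε < |(|(∑ i : Fin n, (if ω i then (1:ℝ) else -1))| / (n:ℝ)) - θ|), wt β ω)
        / (∑ ω : Fin n → Bool, wt β ω)) Filter.atTop (nhds 0) := by
  intro ε hε
  refine (h ε hε).congr fun n => ?_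
  classical
  rw [Pr_eq]
  congr 1
  refine sum_congr ?_ fun _ _ => rfl
  ext ω
  simp only [mem_filter, mem_univ, true_and, Set.mem_setOf_eq]
  have e : (S ω n : ℝ) = ∑ i : Fin n, (if ω i then (1 : ℝ) else -1) := by
    rw [S_last]; push_cast; rfl
  rw [e, one_div, div_eq_inv_mul]

/-- **The speed of the one-dimensional soft polymer is non-decreasing in the repulsion parameter.**
No existence of the speed at other parameters is assumed. -/
theorem result (β₁ β₂ θ₁ θ₂ : ℝ) (h0 : 0 < β₁) (hle : β₁ ≤ β₂) (h₁ : IsSpeed β₁ θ₁)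
    (h₂ : IsSpeed β₂ θ₂) : θ₁ ≤ θ₂ := by
  obtain ⟨R, hR⟩ := exists_R
  have hbounds : ∀ β θ, 0 < β → IsSpeed β θ → ∀ a, 0 < a → a ≤ β / 4 →
      (R a β - R 0 β) / a ≤ θ ∧ θ ≤ (R 0 β - R (-a) β) / a := by
    intro β θ hβ hθ a ha ha'
    obtain ⟨h1, h2, -, -, h5⟩ := hR β hβ
    refine speed_bounds β θ hβ (speed_link β θ hθ) (fun a => R a β) ?_ ?_ a ha ha'
    · intro b hb ρ hρ
      exact Zp_le β hβ (fun a => R a β) (fun x y hxy => (h5 x y hxy).1)
        (fun x y hxy => (h5 x y hxy).2) (fun b m L => Br_bound R β h1 b m L) b hb ρ hρ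
    · intro r hr N0
      obtain ⟨M, hM⟩ := h2 r hr
      exact Zf_lower β r M hM N0
  have h0' : 0 < β₂ := h0.trans_le hle
  obtain ⟨-, -, h3, -, -⟩ := hR β₁ h0
  obtain ⟨-, -, -, ⟨C, hC⟩, -⟩ := hR β₂ h0'
  have hsmall : ∀ a, 0 < a → a ≤ min 1 (β₁ / 4) → θ₁ ≤ θ₂ + |C| * a := by
    intro a ha ha'
    have ha1 : a ≤ 1 := ha'.trans (min_le_left _ _)
    have ha2 : a ≤ β₁ / 4 := ha'.trans (min_le_right _ _)
    have b1 := (hbounds β₁ θ₁ h0 h₁ a ha ha2).2
    have b2 := (hbounds β₂ θ₂ h0' h₂ a ha (ha2.trans (by linarith))).1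
    have g1 := h3 β₂ hle (-a) 0 (by linarith)
    have s1 := hC a ha ha1
    rw [le_div_iff₀ ha] at b1
    rw [div_le_iff₀ ha] at b2
    have h4 : (θ₁ - θ₂) * a ≤ |C| * a * a := by
      have : C * a ^ 2 ≤ |C| * a ^ 2 := mul_le_mul_of_nonneg_right (le_abs_self C) (sq_nonneg a)
      nlinarith
    have := le_of_mul_le_mul_right h4 ha
    linarith
  by_contra hcon
  push Not at hcon
  set d := θ₁ - θ₂ with hd
  have hd0 : 0 < d := by linarith
  set a := min (min 1 (β₁ / 4)) (d / (2 * (|C| + 1))) with ha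
  have hC1 : 0 < |C| + 1 := by positivity
  have ha0 : 0 < a := by
    rw [ha]; refine lt_min (lt_min one_pos (by linarith)) (by positivity)
  have h5 := hsmall a ha0 (min_le_left _ _)
  have h6 : a ≤ d / (2 * (|C| + 1)) := min_le_right _ _
  rw [le_div_iff₀ (by positivity)] at h6
  have h7 : |C| * a ≤ (|C| + 1) * a := by nlinarith
  nlinarith

end Pool.Agent.Results.MP_55179a_pr.SpeedMonotone
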